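import Mathlib

/-!
# An almost everywhere law from first and second moments (helper915)

Adapted from `Pool/Agent/H447R2/ML/P8.lean`; `null_of_density` is copied from there.
-/

set_option autoImplicit false

namespace Pool.Agent.TH915.PC

open Filter Topology MeasureTheory

/-- a set which misses a fixed proportion of every interval is null -/
lemma null_of_density {B : Set ℝ} (hB : MeasurableSet B) {b0 b1 κ : ℝ} (hκ : 0 < κ)
    (hsub : B ⊆ Set.Ioo b0 b1)
    (h : ∀ s t : ℝ, b0 < s → s < t → t < b1 →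
      volume.real (B ∩ Set.Ioc s t) ≤ (1 - κ) * (t - s)) : volume B = 0 := by
  by_contra hne
  have hB1 := Besicovitch.ae_tendsto_measure_inter_div volume B
  rw [ae_restrict_iff' hB] at hB1
  have hex : ∃ x ∈ B, Tendsto (fun r => volume (B ∩ Metric.closedBall x r) /
      volume (Metric.closedBall x r)) (𝓝[>] 0) (𝓝 1) := by
    by_contra hcon
    push Not at hcon
    apply hne
    rw [ae_iff] at hB1
    refine measure_mono_null (fun x hx => ?_) hB1
    simp only [Set.mem_ofPred_eq, Classical.not_imp]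
    exact ⟨hx, hcon x hx⟩
  obtain ⟨x, hx, hlim⟩ := hex
  have hxI := hsub hx
  have hlt : ∀ᶠ r in 𝓝[>] (0 : ℝ), ENNReal.ofReal (1 - κ) < volume (B ∩ Metric.closedBall x r) /
      volume (Metric.closedBall x r) := by
    refine hlim.eventually_const_lt ?_
    rw [ENNReal.ofReal_lt_one]
    linarith
  have hsmall : ∀ᶠ r in 𝓝[>] (0 : ℝ), r < min (x - b0) (b1 - x) := by
    refine nhdsWithin_le_nhds (Iio_mem_nhds ?_)
    exact lt_min (by linarith [hxI.1]) (by linarith [hxI.2])
  have hpos : ∀ᶠ r in 𝓝[>] (0 : ℝ), 0 < r := self_mem_nhdsWithin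
  obtain ⟨r, hr1, hr2, hr3⟩ := (hlt.and (hsmall.and hpos)).exists
  have h2r : 0 < 2 * r := by linarith
  have hr4 := lt_min_iff.1 hr2
  have e1 : Metric.closedBall x r = Set.Icc (x - r) (x + r) := Real.closedBall_eq_Icc
  have hvol : volume (Metric.closedBall x r) = ENNReal.ofReal (2 * r) := by
    rw [e1, Real.volume_Icc]; congr 1; ring
  have hae : volume (B ∩ Metric.closedBall x r) = volume (B ∩ Set.Ioc (x - r) (x + r)) := by
    rw [e1]
    refine measure_congr ?_
    exact (ae_eq_refl B).inter Ioc_ae_eq_Icc.symm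
  have hh := h (x - r) (x + r) (by linarith) (by linarith) (by linarith)
  have hfin : volume (B ∩ Set.Ioc (x - r) (x + r)) ≠ ⊤ :=
    ne_top_of_le_ne_top (by simp) (measure_mono Set.inter_subset_right)
  have hv2 : volume (B ∩ Set.Ioc (x - r) (x + r)) ≤ ENNReal.ofReal ((1 - κ) * (2 * r)) := by
    rw [← ENNReal.ofReal_toReal hfin]
    refine ENNReal.ofReal_le_ofReal ?_
    refine hh.trans (le_of_eq ?_)
    ring
  rw [hvol, hae] at hr1
  rw [ENNReal.lt_div_iff_mul_lt (Or.inl (by simpa using hr3))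
    (Or.inl ENNReal.ofReal_ne_top)] at hr1
  rcases le_or_gt 0 (1 - κ) with h1 | h1
  · rw [← ENNReal.ofReal_mul h1] at hr1
    exact absurd hv2 (not_le.2 hr1)
  · have h3 : (1 - κ) * (2 * r) ≤ 0 := by nlinarith
    rw [ENNReal.ofReal_of_nonpos h3] at hv2
    have h4 : volume (B ∩ Set.Ioc (x - r) (x + r)) = 0 := le_antisymm hv2 bot_le
    rw [h4] at hr1
    exact absurd hr1 (not_lt.2 bot_le)

variable {X : ℕ → ℝ → ℝ} {V : ℕ → ℝ} {b0 b1 L K : ℝ}

lemma int_X (hX : ∀ n, Measurable (X n)) (hX0 : ∀ n x, 0 ≤ X n x) (hbd : ∀ n, ∃ M, ∀ x, X n x ≤ M)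
    (n : ℕ) (s t : ℝ) : IntegrableOn (X n) (Set.Ioc s t) := by
  obtain ⟨M, hM⟩ := hbd n
  refine Measure.integrableOn_of_bounded (M := M) (by simp) (hX n).aestronglyMeasurable ?_
  exact Eventually.of_forall fun x => by
    rw [Real.norm_eq_abs, abs_of_nonneg (hX0 n x)]
    exact hM x

lemma int_X2 (hX : ∀ n, Measurable (X n)) (hX0 : ∀ n x, 0 ≤ X n x) (hbd : ∀ n, ∃ M, ∀ x, X n x ≤ M)
    (n : ℕ) (s t : ℝ) : IntegrableOn (fun x => X n x ^ 2) (Set.Ioc s t) := by
  obtain ⟨M, hM⟩ := hbd n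
  refine Measure.integrableOn_of_bounded (M := M ^ 2) (by simp)
    ((hX n).pow_const 2).aestronglyMeasurable ?_
  exact Eventually.of_forall fun x => by
    rw [Real.norm_eq_abs, abs_of_nonneg (by positivity)]
    exact pow_le_pow_left₀ (hX0 n x) (hM x) 2

/-- the upper half -/
lemma upper_null (hV : Tendsto V atTop atTop) (hX : ∀ n, Measurable (X n)) (hX0 : ∀ n x, 0 ≤ X n x)
    (hbd : ∀ n, ∃ M, ∀ x, X n x ≤ M)
    (hmean : ∀ s t, b0 < s → s < t → t < b1 →
      Tendsto (fun n => (∫ x in Set.Ioc s t, X n x) / V n) atTop (𝓝 (L * (t - s))))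
    {c : ℝ} (hL : 0 < L) (hc : L < c) (n0 : ℕ) :
    volume (Set.Ioo b0 b1 ∩ ⋂ n ∈ Set.Ici n0, {t | c * V n ≤ X n t}) = 0 := by
  have hc0 : 0 < c := hL.trans hc
  set B := Set.Ioo b0 b1 ∩ ⋂ n ∈ Set.Ici n0, {t | c * V n ≤ X n t} with hB
  have hBm : MeasurableSet B := by
    refine measurableSet_Ioo.inter (MeasurableSet.biInter (Set.to_countable _) fun n _ => ?_)
    exact measurableSet_le measurable_const (hX n)
  set κ := (1 - L / c) / 2 with hκ
  have hκ0 : 0 < κ := by
    rw [hκ]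
    have : L / c < 1 := by rw [div_lt_one hc0]; exact hc
    linarith
  refine null_of_density hBm hκ0 Set.inter_subset_left fun s t hs hst ht => ?_
  have hmean' := hmean s t hs hst ht
  have hlt : L * (t - s) < (1 - κ) * (t - s) * c := by
    have h1 : L < (1 - κ) * c := by
      have h2 : (1 - κ) * c = (c + L) / 2 := by rw [hκ]; field_simp; ring
      rw [h2]; linarith
    have : 0 < t - s := by linarith
    nlinarith
  obtain ⟨n, hn1, hn2, hn3⟩ := ((hmean'.eventually_lt_const hlt).and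
    ((eventually_ge_atTop n0).and (hV.eventually_ge_atTop 1))).exists
  have hln : 0 < V n := by linarith
  rw [div_lt_iff₀ hln] at hn1
  have hBI : MeasurableSet (B ∩ Set.Ioc s t) := hBm.inter measurableSet_Ioc
  have hint : IntegrableOn (X n) (Set.Ioc s t) := int_X hX hX0 hbd n s t
  have h1 : volume.real (B ∩ Set.Ioc s t) * (c * V n) ≤ ∫ x in B ∩ Set.Ioc s t, X n x := by
    rw [← smul_eq_mul, ← setIntegral_const]
    refine setIntegral_mono_on (integrableOn_const
      (ne_top_of_le_ne_top (by simp : volume (Set.Ioc s t) ≠ ⊤) (measure_mono Set.inter_subset_right)))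
      (hint.mono_set Set.inter_subset_right) hBI fun x hx => ?_
    have := hx.1.2
    simp only [Set.mem_iInter, Set.mem_ofPred_eq] at this
    exact this n hn2
  have h2 : ∫ x in B ∩ Set.Ioc s t, X n x ≤ ∫ x in Set.Ioc s t, X n x :=
    setIntegral_mono_set hint (Eventually.of_forall fun x => hX0 n x)
      Set.inter_subset_right.eventuallyLE
  have h3 : volume.real (B ∩ Set.Ioc s t) * (c * V n) ≤
      ((1 - κ) * (t - s)) * (c * V n) := by
    calc _ ≤ _ := h1.trans (h2.trans hn1.le)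
      _ = _ := by ring
  exact le_of_mul_le_mul_right h3 (by positivity)

/-- the lower half -/
lemma lower_null (hV : Tendsto V atTop atTop) (hX : ∀ n, Measurable (X n)) (hX0 : ∀ n x, 0 ≤ X n x)
    (hbd : ∀ n, ∃ M, ∀ x, X n x ≤ M)
    (hmean : ∀ s t, b0 < s → s < t → t < b1 →
      Tendsto (fun n => (∫ x in Set.Ioc s t, X n x) / V n) atTop (𝓝 (L * (t - s))))
    (hK : 0 < K)
    (hsec : ∀ s t, b0 < s → s < t → t < b1 →
      ∀ᶠ n in atTop, ∫ x in Set.Ioc s t, (X n x) ^ 2 ≤ K * (t - s) * (V n) ^ 2)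
    {c : ℝ} (hc0 : 0 ≤ c) (hc : c < L) (n0 : ℕ) :
    volume (Set.Ioo b0 b1 ∩ ⋂ n ∈ Set.Ici n0, {t | X n t ≤ c * V n}) = 0 := by
  set B := Set.Ioo b0 b1 ∩ ⋂ n ∈ Set.Ici n0, {t | X n t ≤ c * V n} with hB
  have hBm : MeasurableSet B := by
    refine measurableSet_Ioo.inter (MeasurableSet.biInter (Set.to_countable _) fun n _ => ?_)
    exact measurableSet_le (hX n) measurable_const
  set Δ := L - c with hΔ
  have hΔ0 : 0 < Δ := by rw [hΔ]; linarith
  set κ := (Δ / 2) ^ 2 / K with hκ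
  have hκ0 : 0 < κ := by positivity
  refine null_of_density hBm hκ0 Set.inter_subset_left fun s t hs hst ht => ?_
  have hts : 0 < t - s := by linarith
  have hlt : (c + Δ / 2) * (t - s) < L * (t - s) := by
    have : c + Δ / 2 < L := by rw [hΔ]; linarith
    nlinarith
  obtain ⟨n, hn1, hn2, hn3, hn4⟩ := (((hmean s t hs hst ht).eventually_const_lt hlt).and
    ((eventually_ge_atTop n0).and ((hV.eventually_ge_atTop 1).and (hsec s t hs hst ht)))).exists
  have hln : 0 < V n := by linarith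
  rw [lt_div_iff₀ hln] at hn1
  have hS0 : ∀ x, 0 ≤ X n x := hX0 n
  have hSint : IntegrableOn (X n) (Set.Ioc s t) := int_X hX hX0 hbd n s t
  have hBI : MeasurableSet (B ∩ Set.Ioc s t) := hBm.inter measurableSet_Ioc
  have hsplit : ∫ x in Set.Ioc s t, X n x =
      (∫ x in B ∩ Set.Ioc s t, X n x) + ∫ x in Set.Ioc s t \ B, X n x := by
    have := integral_inter_add_sdiff (μ := volume) (f := X n) (s := Set.Ioc s t) hBm hSint
    rw [Set.inter_comm] at this
    exact this.symm
  set m := volume.real (B ∩ Set.Ioc s t) with hm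
  have hmle : m ≤ t - s := by
    rw [hm, ← Real.volume_real_Ioc_of_le hst.le]
    exact measureReal_mono Set.inter_subset_right (by simp)
  have hm0 : 0 ≤ m := measureReal_nonneg
  have hB1 : ∫ x in B ∩ Set.Ioc s t, X n x ≤ m * (c * V n) := by
    rw [hm, ← smul_eq_mul, ← setIntegral_const]
    refine setIntegral_mono_on (hSint.mono_set Set.inter_subset_right) (integrableOn_const
      (ne_top_of_le_ne_top (by simp : volume (Set.Ioc s t) ≠ ⊤) (measure_mono Set.inter_subset_right)))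
      hBI fun x hx => ?_
    have := hx.1.2
    simp only [Set.mem_iInter, Set.mem_ofPred_eq] at this
    exact this n hn2
  have hB2 : Δ / 2 * (t - s) * V n ≤ ∫ x in Set.Ioc s t \ B, X n x := by
    have h1 : m * (c * V n) ≤ (t - s) * (c * V n) :=
      mul_le_mul_of_nonneg_right hmle (by positivity)
    nlinarith
  have hm' : volume.real (Set.Ioc s t \ B) = (t - s) - m := by
    have h1 := measureReal_inter_add_sdiff (μ := volume) (s := Set.Ioc s t) hBm (by simp)
    rw [Real.volume_real_Ioc_of_le hst.le, Set.inter_comm] at h1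
    linarith
  have hS2int : IntegrableOn (fun x => X n x ^ 2) (Set.Ioc s t) := int_X2 hX hX0 hbd n s t
  set E := Set.Ioc s t \ B with hE
  have hEm : MeasurableSet E := measurableSet_Ioc.diff hBm
  have hEfin : volume E ≠ ⊤ :=
    ne_top_of_le_ne_top (by simp : volume (Set.Ioc s t) ≠ ⊤) (measure_mono Set.sdiff_subset)
  have hEs : ∫ x in E, X n x ^ 2 ≤ K * (t - s) * (V n) ^ 2 := by
    refine le_trans ?_ hn4
    exact setIntegral_mono_set hS2int (Eventually.of_forall fun x => sq_nonneg _)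
      Set.sdiff_subset.eventuallyLE
  have hquad : ∀ lam : ℝ, 0 < lam → ∫ x in E, X n x ≤
      (lam * (∫ x in E, X n x ^ 2) + (1 / lam) * volume.real E) / 2 := by
    intro lam hlam
    have h1 : ∫ x in E, X n x ≤ ∫ x in E, (lam / 2 * X n x ^ 2 + 1 / (2 * lam)) := by
      refine setIntegral_mono_on (hSint.mono_set Set.sdiff_subset)
        (((hS2int.mono_set Set.sdiff_subset).const_mul _).add (integrableOn_const hEfin)) hEm
        fun x _ => ?_
      have h2 : 0 ≤ (lam * X n x - 1) ^ 2 / (2 * lam) := by positivity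
      have h3 : (lam * X n x - 1) ^ 2 / (2 * lam) = lam / 2 * X n x ^ 2 + 1 / (2 * lam) - X n x := by
        field_simp; ring
      linarith
    rw [integral_add ((hS2int.mono_set Set.sdiff_subset).const_mul _) (integrableOn_const hEfin),
      integral_const_mul, setIntegral_const, smul_eq_mul, ← hE] at h1
    refine h1.trans (le_of_eq ?_)
    field_simp
  by_contra hcon
  push Not at hcon
  have hEv : volume.real E < κ * (t - s) := by
    rw [hm']; linarith
  have hE0 : 0 ≤ volume.real E := measureReal_nonneg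
  set lam := Δ / (2 * K * V n) with hlam
  have hlam0 : 0 < lam := by positivity
  have hq := hquad lam hlam0
  have h5 : lam * (∫ x in E, X n x ^ 2) ≤ Δ / 2 * (t - s) * V n := by
    calc lam * (∫ x in E, X n x ^ 2) ≤ lam * (K * (t - s) * (V n) ^ 2) :=
          mul_le_mul_of_nonneg_left hEs hlam0.le
      _ = _ := by rw [hlam]; field_simp
  have h6 : (1 / lam) * volume.real E < Δ / 2 * (t - s) * V n := by
    calc (1 / lam) * volume.real E < (1 / lam) * (κ * (t - s)) :=
          mul_lt_mul_of_pos_left hEv (by positivity)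
      _ = _ := by rw [hlam, hκ]; field_simp
  linarith

/-- **The almost everywhere law.** -/
theorem law (hV : Tendsto V atTop atTop) (hX : ∀ n, Measurable (X n)) (hX0 : ∀ n x, 0 ≤ X n x)
    (hbd : ∀ n, ∃ M, ∀ x, X n x ≤ M)
    (hmean : ∀ s t, b0 < s → s < t → t < b1 →
      Tendsto (fun n => (∫ x in Set.Ioc s t, X n x) / V n) atTop (𝓝 (L * (t - s))))
    (hL : 0 < L) (hK : 0 < K)
    (hsec : ∀ s t, b0 < s → s < t → t < b1 →
      ∀ᶠ n in atTop, ∫ x in Set.Ioc s t, (X n x) ^ 2 ≤ K * (t - s) * (V n) ^ 2) :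
    ∀ᵐ x : ℝ, x ∈ Set.Ioo b0 b1 → (∀ c : ℝ, c < L → ∃ᶠ n in atTop, c * V n < X n x) ∧
      (∀ c : ℝ, L < c → ∃ᶠ n in atTop, X n x < c * V n) := by
  have h1 : ∀ q : ℚ, ∀ n0 : ℕ, ∀ᵐ x : ℝ, 0 ≤ (q : ℝ) → (q : ℝ) < L →
      x ∉ Set.Ioo b0 b1 ∩ ⋂ n ∈ Set.Ici n0, {t | X n t ≤ q * V n} := by
    intro q n0
    by_cases h : 0 ≤ (q : ℝ) ∧ (q : ℝ) < L
    · have h2 := lower_null hV hX hX0 hbd hmean hK hsec h.1 h.2 n0
      have h3 : ∀ᵐ x : ℝ, x ∉ Set.Ioo b0 b1 ∩ ⋂ n ∈ Set.Ici n0, {t | X n t ≤ q * V n} :=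
        measure_eq_zero_iff_ae_notMem.1 h2
      filter_upwards [h3] with x hx _ _
      exact hx
    · exact Eventually.of_forall fun x h2 h3 => absurd ⟨h2, h3⟩ h
  have h2 : ∀ q : ℚ, ∀ n0 : ℕ, ∀ᵐ x : ℝ, L < (q : ℝ) →
      x ∉ Set.Ioo b0 b1 ∩ ⋂ n ∈ Set.Ici n0, {t | q * V n ≤ X n t} := by
    intro q n0
    by_cases h : L < (q : ℝ)
    · have h2 := upper_null hV hX hX0 hbd hmean hL h n0
      have h3 : ∀ᵐ x : ℝ, x ∉ Set.Ioo b0 b1 ∩ ⋂ n ∈ Set.Ici n0, {t | q * V n ≤ X n t} :=
        measure_eq_zero_iff_ae_notMem.1 h2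
      filter_upwards [h3] with x hx _
      exact hx
    · exact Eventually.of_forall fun x h2 => absurd h2 h
  have h1' := ae_all_iff.2 fun q => ae_all_iff.2 (h1 q)
  have h2' := ae_all_iff.2 fun q => ae_all_iff.2 (h2 q)
  filter_upwards [h1', h2'] with x hx1 hx2 hx
  have hV0 : ∀ᶠ n in atTop, 0 ≤ V n := hV.eventually_ge_atTop 0
  constructor
  · intro c hc
    obtain ⟨q, hq1, hq2⟩ := exists_rat_btwn (max_lt hc hL)
    rw [frequently_atTop]
    intro n0
    obtain ⟨n1, hn1⟩ := eventually_atTop.1 hV0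
    have h3 := hx1 q (max n0 n1) ((le_max_right c 0).trans hq1.le) hq2
    have h4 : x ∉ ⋂ n ∈ Set.Ici (max n0 n1), {t | X n t ≤ q * V n} := fun h => h3 ⟨hx, h⟩
    simp only [Set.mem_iInter, Set.mem_ofPred_eq, not_forall, not_le] at h4
    obtain ⟨n, hn, h5⟩ := h4
    have hn' : max n0 n1 ≤ n := hn
    refine ⟨n, (le_max_left _ _).trans hn', lt_of_le_of_lt ?_ h5⟩
    exact mul_le_mul_of_nonneg_right ((le_max_left c 0).trans hq1.le)
      (hn1 n ((le_max_right _ _).trans hn'))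
  · intro c hc
    obtain ⟨q, hq1, hq2⟩ := exists_rat_btwn hc
    rw [frequently_atTop]
    intro n0
    obtain ⟨n1, hn1⟩ := eventually_atTop.1 hV0
    have h3 := hx2 q (max n0 n1) hq1
    have h4 : x ∉ ⋂ n ∈ Set.Ici (max n0 n1), {t | q * V n ≤ X n t} := fun h => h3 ⟨hx, h⟩
    simp only [Set.mem_iInter, Set.mem_ofPred_eq, not_forall, not_le] at h4
    obtain ⟨n, hn, h5⟩ := h4
    have hn' : max n0 n1 ≤ n := hn
    refine ⟨n, (le_max_left _ _).trans hn', lt_of_lt_of_le h5 ?_⟩
    exact mul_le_mul_of_nonneg_right hq2.le (hn1 n ((le_max_right _ _).trans hn'))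

end Pool.Agent.TH915.PC
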