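import Mathlib
import Pool.Agent.Helper923.PNT
import Pool.Agent.Helper923.PPS.BT

/-!
# The indicator of the primes as a function of a real variable (helper915)
-/

set_option autoImplicit false

namespace Pool.Agent.TH915.PC

open Filter Topology MeasureTheory Finset

open scoped Classical

/-- the indicator of the real numbers `y` with `⌊y⌋ + 5` prime -/
noncomputable def ph (y : ℝ) : ℝ := if (⌊y⌋₊ + 5).Prime then 1 else 0

/-- the indicator for integers -/
noncomputable def cc (k : ℕ) : ℝ := if (k + 5).Prime then 1 else 0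

lemma ph_nonneg (y : ℝ) : 0 ≤ ph y := by unfold ph; split_ifs <;> norm_num

lemma ph_le_one (y : ℝ) : ph y ≤ 1 := by unfold ph; split_ifs <;> norm_num

lemma cc_nonneg (k : ℕ) : 0 ≤ cc k := by unfold cc; split_ifs <;> norm_num

lemma cc_le_one (k : ℕ) : cc k ≤ 1 := by unfold cc; split_ifs <;> norm_num

lemma ph_eq (y : ℝ) : ph y = cc ⌊y⌋₊ := rfl

lemma measurable_ph : Measurable ph :=
  (measurable_from_top (f := cc)).comp Nat.measurable_floor

lemma integrableOn_ph (u v : ℝ) : IntegrableOn ph (Set.Ioc u v) := by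
  refine Measure.integrableOn_of_bounded (M := 1) (by simp) measurable_ph.aestronglyMeasurable ?_
  exact Eventually.of_forall fun x => by
    rw [Real.norm_eq_abs, abs_of_nonneg (ph_nonneg x)]
    exact ph_le_one x

lemma ii (u v : ℝ) : IntervalIntegrable ph volume u v := by
  rcases le_total u v with h | h
  · exact (intervalIntegrable_iff_integrableOn_Ioc_of_le h).2 (integrableOn_ph u v)
  · exact ((intervalIntegrable_iff_integrableOn_Ioc_of_le h).2 (integrableOn_ph v u)).symm

lemma cell (k : ℕ) : ∫ y in (k : ℝ)..((k + 1 : ℕ) : ℝ), ph y = cc k := by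
  rw [intervalIntegral.integral_of_le (by push_cast; linarith), ← integral_Ico_eq_integral_Ioc]
  have h1 : ∀ y ∈ Set.Ico (k : ℝ) ((k + 1 : ℕ) : ℝ), ph y = cc k := by
    intro y hy
    have h2 : ⌊y⌋₊ = k := by
      rw [Nat.floor_eq_iff (le_trans (Nat.cast_nonneg k) hy.1)]
      exact ⟨hy.1, by have := hy.2; push_cast at this; exact this⟩
    rw [ph_eq, h2]
  rw [setIntegral_congr_fun measurableSet_Ico h1, setIntegral_const]
  simp

lemma int_nat {a b : ℕ} (h : a ≤ b) : ∫ y in (a : ℝ)..(b : ℝ), ph y = ∑ k ∈ Finset.Ico a b, cc k := by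
  rw [← intervalIntegral.sum_integral_adjacent_intervals_Ico h fun k _ => ii _ _]
  exact Finset.sum_congr rfl fun k _ => cell k

lemma int_mono {u v u' v' : ℝ} (h1 : u' ≤ u) (h2 : u ≤ v) (h3 : v ≤ v') :
    ∫ y in u..v, ph y ≤ ∫ y in u'..v', ph y := by
  rw [intervalIntegral.integral_of_le h2, intervalIntegral.integral_of_le (h1.trans (h2.trans h3))]
  exact setIntegral_mono_set (integrableOn_ph _ _) (Eventually.of_forall ph_nonneg)
    (Set.Ioc_subset_Ioc h1 h3).eventuallyLE

lemma int_nonneg {u v : ℝ} (h : u ≤ v) : 0 ≤ ∫ y in u..v, ph y :=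
  intervalIntegral.integral_nonneg h fun y _ => ph_nonneg y

/-- Brun-Titchmarsh for integers -/
theorem bt_sum : ∃ C : ℝ, 1 ≤ C ∧ ∀ a b : ℕ, a + 2 ≤ b →
    ∑ k ∈ Finset.Ico a b, cc k ≤ C * ((b - a : ℕ) : ℝ) / Real.log ((b - a : ℕ) : ℝ) := by
  obtain ⟨C, hC, h⟩ := Pool.Agent.Helper923.PPS.brun_titchmarsh
  refine ⟨C, hC, fun a b hab => ?_⟩
  have h1 := h (a + 5) 1 (b - a) (by omega) (Or.inl rfl)
  refine le_trans (le_of_eq ?_) h1
  rw [Finset.sum_Ico_eq_sum_range]
  unfold cc
  rw [Finset.sum_boole]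
  congr 2
  ext k
  simp only [Finset.mem_filter]
  have : a + k + 5 = a + 5 + k * 1 := by ring
  rw [this]

/-- Brun-Titchmarsh for the integrals -/
theorem bt : ∃ C : ℝ, 1 ≤ C ∧ ∀ u v : ℝ, 0 ≤ u → 2 ≤ v - u →
    ∑ k ∈ Finset.Ico ⌊u⌋₊ ⌈v⌉₊, cc k ≤ C * (v - u) / Real.log (v - u) ∧
    ∫ y in u..v, ph y ≤ C * (v - u) / Real.log (v - u) := by
  obtain ⟨C, hC, h⟩ := bt_sum
  refine ⟨2 * C, by linarith, fun u v hu huv => ?_⟩
  have hv0 : 0 ≤ v := by linarith
  have f1 := Nat.floor_le hu
  have f2 := Nat.le_ceil v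
  have f3 := Nat.ceil_lt_add_one hv0
  have f4 := Nat.lt_floor_add_one u
  have hab : ⌊u⌋₊ + 2 ≤ ⌈v⌉₊ := by
    have : ((⌊u⌋₊ + 2 : ℕ) : ℝ) ≤ (⌈v⌉₊ : ℝ) := by push_cast; linarith
    exact_mod_cast this
  have h1 := h _ _ hab
  rw [Nat.cast_sub (by omega)] at h1
  set N : ℝ := (⌈v⌉₊ : ℝ) - (⌊u⌋₊ : ℝ) with hN
  have hN1 : v - u ≤ N := by rw [hN]; linarith
  have hN2 : N ≤ 2 * (v - u) := by rw [hN]; linarith
  have hl : 0 < Real.log (v - u) := Real.log_pos (by linarith)
  have hl2 : Real.log (v - u) ≤ Real.log N := Real.log_le_log (by linarith) hN1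
  have h2 : C * N / Real.log N ≤ 2 * C * (v - u) / Real.log (v - u) := by
    apply div_le_div₀
    · have : 0 ≤ v - u := by linarith
      positivity
    · nlinarith
    · exact hl
    · exact hl2
  refine ⟨h1.trans h2, ?_⟩
  calc ∫ y in u..v, ph y ≤ ∫ y in (⌊u⌋₊ : ℝ)..(⌈v⌉₊ : ℝ), ph y := int_mono f1 (by linarith) f2
    _ = _ := int_nat (by omega)
    _ ≤ _ := h1.trans h2

/-- the primitive -/
noncomputable def Ph (Y : ℝ) : ℝ := ∫ y in (0 : ℝ)..Y, ph y

lemma Ph_sub (u v : ℝ) : Ph v - Ph u = ∫ y in u..v, ph y := by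
  unfold Ph
  rw [intervalIntegral.integral_interval_sub_left (ii _ _) (ii _ _)]

lemma Ph_near {Y : ℝ} (hY : 0 ≤ Y) : |Ph Y - (Nat.primeCounting ⌊Y⌋₊ : ℝ)| ≤ 10 := by
  set N := ⌊Y⌋₊ with hN
  have f1 : (N : ℝ) ≤ Y := Nat.floor_le hY
  have f2 : Y < N + 1 := Nat.lt_floor_add_one Y
  have e1 : Ph N = ∑ k ∈ Finset.range N, cc k := by
    unfold Ph
    have := int_nat (Nat.zero_le N)
    rw [Nat.cast_zero] at this
    rw [this, Finset.range_eq_Ico]
  have h1 : Ph N ≤ Ph Y := by
    have := Ph_sub N Y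
    have h2 := int_nonneg f1
    linarith
  have h2 : Ph Y ≤ Ph N + 1 := by
    have h3 := Ph_sub N Y
    have h4 : ∫ y in (N : ℝ)..Y, ph y ≤ ∫ _y in (N : ℝ)..Y, (1 : ℝ) :=
      intervalIntegral.integral_mono_on f1 (ii _ _) (intervalIntegrable_const) fun y _ => ph_le_one y
    simp only [intervalIntegral.integral_const, smul_eq_mul, mul_one] at h4
    linarith
  have e2 : ∑ k ∈ Finset.range N, cc k = (((Finset.range N).filter (fun k => (k + 5).Prime)).card : ℝ) := by
    unfold cc
    rw [Finset.sum_boole]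
  have h3 : ((Finset.range N).filter (fun k => (k + 5).Prime)).card ≤ Nat.primeCounting N + 4 := by
    have h4 : ((Finset.range N).filter (fun k => (k + 5).Prime)).card ≤
        (((Finset.range (N + 1)).filter Nat.Prime) ∪ (Finset.Icc (N + 1) (N + 4))).card := by
      refine Finset.card_le_card_of_injOn (fun k => k + 5) ?_ ?_
      · intro k hk
        rw [Finset.mem_coe, Finset.mem_filter, Finset.mem_range] at hk
        simp only [Finset.coe_union, Set.mem_union, Finset.mem_coe, Finset.mem_filter,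
          Finset.mem_range, Finset.mem_Icc]
        by_cases h : k + 5 < N + 1
        · exact Or.inl ⟨h, hk.2⟩
        · exact Or.inr ⟨by omega, by omega⟩
      · intro a _ b _ hab
        simp only at hab
        omega
    refine h4.trans ((Finset.card_union_le _ _).trans ?_)
    rw [Nat.card_Icc]
    have e : ((Finset.range (N + 1)).filter Nat.Prime).card = Nat.primeCounting N := by
      rw [Nat.primeCounting, Nat.primeCounting', Nat.count_eq_card_filter_range]
    omega
  have h4 : Nat.primeCounting N ≤ ((Finset.range N).filter (fun k => (k + 5).Prime)).card + 5 := by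
    have e : ((Finset.range (N + 1)).filter Nat.Prime).card = Nat.primeCounting N := by
      rw [Nat.primeCounting, Nat.primeCounting', Nat.count_eq_card_filter_range]
    rw [← e]
    have h5 : (Finset.range (N + 1)).filter Nat.Prime ⊆ (Finset.range 5) ∪
        (((Finset.range N).filter (fun k => (k + 5).Prime)).image (fun k => k + 5)) := by
      intro p hp
      rw [Finset.mem_filter, Finset.mem_range] at hp
      rw [Finset.mem_union, Finset.mem_range, Finset.mem_image]
      by_cases h : p < 5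
      · exact Or.inl h
      · refine Or.inr ⟨p - 5, ?_, by omega⟩
        rw [Finset.mem_filter, Finset.mem_range]
        refine ⟨by omega, ?_⟩
        have : p - 5 + 5 = p := by omega
        rw [this]; exact hp.2
    refine (Finset.card_le_card h5).trans ((Finset.card_union_le _ _).trans ?_)
    rw [Finset.card_range]
    have := Finset.card_image_le (s := (Finset.range N).filter (fun k => (k + 5).Prime))
      (f := fun k => k + 5)
    omega
  have h3' : (((Finset.range N).filter (fun k => (k + 5).Prime)).card : ℝ) ≤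
      (Nat.primeCounting N : ℝ) + 4 := by exact_mod_cast h3
  have h4' : (Nat.primeCounting N : ℝ) ≤
      (((Finset.range N).filter (fun k => (k + 5).Prime)).card : ℝ) + 5 := by exact_mod_cast h4
  rw [e1, e2] at h1 h2
  rw [abs_le]
  constructor <;> linarith

/-- the prime number theorem -/
theorem Ph_tendsto : Tendsto (fun Y : ℝ => Ph Y * Real.log Y / Y) atTop (𝓝 1) := by
  have h1 := Pool.Agent.Helper923.PNT.pi_tendsto
  have h2 : Tendsto (fun Y : ℝ => (Ph Y - (Nat.primeCounting ⌊Y⌋₊ : ℝ)) * Real.log Y / Y) atTop (𝓝 0) := by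
    have h3 : Tendsto (fun Y : ℝ => 10 * (Real.log Y / Y)) atTop (𝓝 0) := by
      have h4 : Tendsto (fun Y : ℝ => Real.log Y / Y) atTop (𝓝 0) := by
        have := Real.isLittleO_log_id_atTop.tendsto_div_nhds_zero
        exact this
      simpa using h4.const_mul 10
    refine squeeze_zero_norm' ?_ h3
    filter_upwards [eventually_ge_atTop (1 : ℝ)] with Y hY
    have hl : 0 ≤ Real.log Y := Real.log_nonneg hY
    have hY0 : 0 < Y := by linarith
    rw [Real.norm_eq_abs, abs_div, abs_mul, abs_of_nonneg hl, abs_of_pos hY0, mul_div_assoc]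
    exact mul_le_mul_of_nonneg_right (Ph_near hY0.le) (div_nonneg hl hY0.le)
  have h3 := h1.add h2
  rw [add_zero] at h3
  refine h3.congr fun Y => ?_
  ring

end Pool.Agent.TH915.PC
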