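import Pool.Agent.TH915.PC.Pert

/-!
# Real points of the Pell conic (helper915)
-/

set_option autoImplicit false

namespace Pool.Agent.TH915.PC

open Filter Topology MeasureTheory Finset

open scoped Classical

noncomputable def eta : ℝ := 3 + Real.sqrt 8

noncomputable def dd (x : ℝ) (n : ℕ) : ℝ := (Real.sqrt x * eta ^ n + (Real.sqrt x * eta ^ n)⁻¹) / 2

noncomputable def bb (x : ℝ) (n : ℕ) : ℝ :=
  (Real.sqrt x * eta ^ n - (Real.sqrt x * eta ^ n)⁻¹) / (2 * Real.sqrt 8)

noncomputable def W (x : ℝ) (n : ℕ) : ℕ := ⌊8 * dd x n ^ 2⌋₊ + 1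

noncomputable def M (x : ℝ) (N : ℕ) : ℕ := ((range (N + 1)).filter (fun n => (W x n).Prime)).card

lemma s8 : Real.sqrt 8 ^ 2 = 8 := Real.sq_sqrt (by norm_num)

lemma s8pos : 0 < Real.sqrt 8 := Real.sqrt_pos.2 (by norm_num)

lemma eta3 : 3 < eta := by unfold eta; linarith [s8pos]

lemma eta0 : 0 < eta := by linarith [eta3]

lemma eta_inv : eta⁻¹ = 3 - Real.sqrt 8 := by
  rw [inv_eq_one_div, div_eq_iff eta0.ne']
  unfold eta
  nlinarith [s8]

lemma u_pos {x : ℝ} (hx : 0 < x) (n : ℕ) : 0 < Real.sqrt x * eta ^ n :=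
  mul_pos (Real.sqrt_pos.2 hx) (pow_pos eta0 n)

lemma conic {x : ℝ} (hx : 0 < x) (n : ℕ) : dd x n ^ 2 - 8 * bb x n ^ 2 = 1 := by
  have h := u_pos hx n
  have h8 := s8pos
  unfold dd bb
  generalize Real.sqrt x * eta ^ n = u at h
  have e : ((u - u⁻¹) / (2 * Real.sqrt 8)) ^ 2 = (u - u⁻¹) ^ 2 / 32 := by
    rw [div_pow, mul_pow, s8]; norm_num
  rw [e]
  field_simp
  ring

lemma eight {x : ℝ} (hx : 0 < x) (n : ℕ) :
    8 * dd x n ^ 2 = 2 * x * (eta ^ 2) ^ n + 2 * x⁻¹ * ((eta ^ 2) ^ n)⁻¹ + 4 := by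
  have h := u_pos hx n
  have e1 : (Real.sqrt x * eta ^ n) ^ 2 = x * (eta ^ 2) ^ n := by
    rw [mul_pow, Real.sq_sqrt hx.le, ← pow_mul, ← pow_mul, mul_comm n 2]
  unfold dd
  have e2 : x⁻¹ * ((eta ^ 2) ^ n)⁻¹ = ((Real.sqrt x * eta ^ n) ^ 2)⁻¹ := by
    rw [e1, mul_inv]
  have e3 : 2 * x * (eta ^ 2) ^ n = 2 * (Real.sqrt x * eta ^ n) ^ 2 := by rw [e1]; ring
  rw [mul_assoc 2 x⁻¹, e2, e3]
  generalize Real.sqrt x * eta ^ n = u at h
  field_simp
  ring

/-- the integer points -/
def DB : ℕ → ℕ × ℕ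
  | 0 => (1, 0)
  | n + 1 => (3 * (DB n).1 + 8 * (DB n).2, (DB n).1 + 3 * (DB n).2)

lemma DB_plus (n : ℕ) : ((DB n).1 : ℝ) + (DB n).2 * Real.sqrt 8 = eta ^ n := by
  induction n with
  | zero => simp [DB]
  | succ n ih =>
    rw [pow_succ, ← ih]
    simp only [DB]
    push_cast
    unfold eta
    nlinarith [s8]

lemma DB_minus (n : ℕ) : ((DB n).1 : ℝ) - (DB n).2 * Real.sqrt 8 = (eta ^ n)⁻¹ := by
  rw [← inv_pow, eta_inv]
  induction n with
  | zero => simp [DB]
  | succ n ih =>
    rw [pow_succ, ← ih]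
    simp only [DB]
    push_cast
    nlinarith [s8]

lemma dd_one (n : ℕ) : dd 1 n = (DB n).1 := by
  unfold dd
  rw [Real.sqrt_one, one_mul, ← DB_minus, ← DB_plus]
  ring

lemma bb_one (n : ℕ) : bb 1 n = (DB n).2 := by
  unfold bb
  rw [Real.sqrt_one, one_mul, ← DB_minus, ← DB_plus]
  have := s8pos
  field_simp
  ring

lemma W_one (n : ℕ) : W 1 n = 8 * (DB n).1 ^ 2 + 1 := by
  unfold W
  rw [dd_one]
  have : 8 * ((DB n).1 : ℝ) ^ 2 = ((8 * (DB n).1 ^ 2 : ℕ) : ℝ) := by push_cast; ring
  rw [this, Nat.floor_natCast]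

lemma DB_pell (n : ℕ) : (DB n).1 ^ 2 = 8 * (DB n).2 ^ 2 + 1 := by
  induction n with
  | zero => simp [DB]
  | succ n ih =>
    simp only [DB]
    nlinarith [ih]

/-- descent -/
lemma descent : ∀ b d : ℕ, d ^ 2 = 8 * b ^ 2 + 1 → ∃ n, DB n = (d, b) := by
  intro b
  induction b using Nat.strong_induction_on with
  | _ b ih =>
    intro d h
    rcases Nat.eq_zero_or_pos b with rfl | hb
    · refine ⟨0, ?_⟩
      have hd : d = 1 := by nlinarith
      simp [DB, hd]
    · have h1 : 2 * b < d := by nlinarith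
      have h2 : d ≤ 3 * b := by nlinarith
      have h3 : 8 * b ≤ 3 * d := by nlinarith
      obtain ⟨n, hn⟩ := ih (3 * b - d) (by omega) (3 * d - 8 * b) (by
        zify [h2, h3]
        have : (d : ℤ) ^ 2 = 8 * (b : ℤ) ^ 2 + 1 := by exact_mod_cast h
        linear_combination this)
      refine ⟨n + 1, ?_⟩
      simp only [DB, hn]
      rw [Prod.mk.injEq]
      constructor <;> omega

lemma pell_iff (d b : ℕ) : d ^ 2 = 8 * b ^ 2 + 1 ↔ ∃ n, dd 1 n = d ∧ bb 1 n = b := by
  constructor
  · intro h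
    obtain ⟨n, hn⟩ := descent b d h
    exact ⟨n, by rw [dd_one, hn], by rw [bb_one, hn]⟩
  · rintro ⟨n, h1, h2⟩
    rw [dd_one] at h1
    rw [bb_one] at h2
    have h3 : (DB n).1 = d := by exact_mod_cast h1
    have h4 : (DB n).2 = b := by exact_mod_cast h2
    rw [← h3, ← h4]
    exact DB_pell n

lemma admissible_iff (p : ℕ) :
    (∃ b d : ℤ, (p : ℤ) = 64 * b ^ 2 + 9 ∧ (p : ℤ) = 8 * d ^ 2 + 1) ↔ ∃ n, p = W 1 n := by
  constructor
  · rintro ⟨b, d, h1, h2⟩
    have h3 : d ^ 2 = 8 * b ^ 2 + 1 := by linarith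
    have h4 : d.natAbs ^ 2 = 8 * b.natAbs ^ 2 + 1 := by
      zify
      rw [sq_abs, sq_abs]
      exact h3
    obtain ⟨n, hn⟩ := descent _ _ h4
    refine ⟨n, ?_⟩
    rw [W_one, hn]
    zify
    rw [sq_abs]
    exact h2
  · rintro ⟨n, hn⟩
    refine ⟨(DB n).2, (DB n).1, ?_, ?_⟩
    · rw [hn, W_one]
      have : ((DB n).1 : ℤ) ^ 2 = 8 * ((DB n).2 : ℤ) ^ 2 + 1 := by exact_mod_cast DB_pell n
      push_cast
      linarith
    · rw [hn, W_one]
      push_cast
      ring

/-- `α` -/
noncomputable def al : ℝ := eta ^ 2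

lemma al2 : 2 ≤ al := by unfold al; nlinarith [eta3]

lemma log_al : Real.log al = 2 * Real.log eta := by unfold al; rw [Real.log_pow]; norm_num

lemma W_eq : ∀ᵐ x : ℝ, 0 < x → ∀ᶠ n : ℕ in atTop, ((W x n).Prime ↔ fn al n x = 1) := by
  filter_upwards [pert al2] with x hx hx0
  filter_upwards [hx hx0] with n hn
  unfold W
  rw [eight hx0]
  change (⌊2 * x * al ^ n + 2 * x⁻¹ * (al ^ n)⁻¹ + 4⌋₊ + 1).Prime ↔ _
  rw [hn]
  unfold fn ph
  have e : ⌊2 * al ^ n * x⌋₊ + 4 + 1 = ⌊2 * al ^ n * x⌋₊ + 5 := by ring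
  rw [e]
  split_ifs with h
  · simp [h]
  · simp [h]

lemma XX_card (x : ℝ) (N : ℕ) : XX al (fun _ => 1) N x =
    (((range N).filter (fun n => fn al n x = 1)).card : ℝ) := by
  unfold XX
  rw [← Finset.sum_boole]
  refine Finset.sum_congr rfl fun n _ => ?_
  rw [one_mul]
  unfold fn ph
  split_ifs with h1 h2 h2
  · rfl
  · exact absurd rfl h2
  · norm_num at h2
  · rfl

theorem law_main : ∀ᵐ x : ℝ, 0 < x →
    (∀ c : ℝ, c < 1 / (2 * Real.log eta) → ∃ᶠ N : ℕ in atTop, c * Real.log N < M x N) ∧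
    (∀ c : ℝ, 1 / (2 * Real.log eta) < c → ∃ᶠ N : ℕ in atTop, (M x N : ℝ) < c * Real.log N) := by
  have h1 := law_XX al2 (w := fun _ => 1) (fun _ => zero_le_one) (fun _ => le_rfl)
    VV_one_tendsto H_one
  rw [log_al] at h1
  filter_upwards [h1, W_eq] with x hx1 hx2 hx0
  obtain ⟨n0, hn0⟩ := eventually_atTop.1 (hx2 hx0)
  obtain ⟨a1, a2⟩ := hx1 hx0
  have hle : ∀ N : ℕ, XX al (fun _ => 1) (N + 1) x ≤ M x N + n0 := by
    intro N
    rw [XX_card]
    have h : ((range (N + 1)).filter (fun n => fn al n x = 1)).card ≤ M x N + n0 := by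
      unfold M
      calc _ ≤ (((range (N + 1)).filter (fun n => (W x n).Prime)) ∪ range n0).card := by
            refine Finset.card_le_card fun n hn => ?_
            rw [Finset.mem_filter] at hn
            rw [Finset.mem_union, Finset.mem_filter]
            by_cases h : n0 ≤ n
            · exact Or.inl ⟨hn.1, (hn0 n h).2 hn.2⟩
            · right
              rw [Finset.mem_range]
              omega
        _ ≤ _ := (Finset.card_union_le _ _).trans (by rw [Finset.card_range])
    exact_mod_cast h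
  have hge : ∀ N : ℕ, (M x N : ℝ) ≤ XX al (fun _ => 1) (N + 1) x + n0 := by
    intro N
    rw [XX_card]
    have h : M x N ≤ ((range (N + 1)).filter (fun n => fn al n x = 1)).card + n0 := by
      unfold M
      calc _ ≤ (((range (N + 1)).filter (fun n => fn al n x = 1)) ∪ range n0).card := by
            refine Finset.card_le_card fun n hn => ?_
            rw [Finset.mem_filter] at hn
            rw [Finset.mem_union, Finset.mem_filter]
            by_cases h : n0 ≤ n
            · exact Or.inl ⟨hn.1, (hn0 n h).1 hn.2⟩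
            · right
              rw [Finset.mem_range]
              omega
        _ ≤ _ := (Finset.card_union_le _ _).trans (by rw [Finset.card_range])
    exact_mod_cast h
  have hlog : Tendsto (fun N : ℕ => Real.log (N : ℝ)) atTop atTop :=
    Real.tendsto_log_atTop.comp tendsto_natCast_atTop_atTop
  have hL : 0 < 1 / (2 * Real.log eta) := by
    have := Real.log_pos (show 1 < eta by linarith [eta3])
    positivity
  constructor
  · intro c hc
    obtain ⟨c', hc1, hc2⟩ := exists_between (max_lt hc hL)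
    have hc0 : 0 < c' := (le_max_right _ _).trans_lt hc1
    have hcc : c < c' := (le_max_left _ _).trans_lt hc1
    have hf := a1 c' hc2
    rw [frequently_atTop] at hf ⊢
    intro a
    obtain ⟨b, hb⟩ := eventually_atTop.1 ((hlog.eventually_ge_atTop ((n0 : ℝ) / (c' - c))).and
      (eventually_ge_atTop 1))
    obtain ⟨M', hM1, hM2⟩ := hf (max a b + 1)
    obtain ⟨N, rfl⟩ : ∃ N, M' = N + 1 := ⟨M' - 1, by omega⟩
    have hNa : max a b ≤ N := by omega
    obtain ⟨hb1, hb2⟩ := hb N ((le_max_right _ _).trans hNa)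
    refine ⟨N, (le_max_left _ _).trans hNa, ?_⟩
    have h3 := hle N
    have h4 : Real.log N ≤ VV (fun _ => 1) (N + 1) := by
      rw [VV_one]
      refine le_trans (Real.log_le_log (by exact_mod_cast hb2) ?_) (le_hsum N)
      linarith
    have h5 : c' * Real.log N ≤ c' * VV (fun _ => 1) (N + 1) := mul_le_mul_of_nonneg_left h4 hc0.le
    have h6 : (n0 : ℝ) ≤ (c' - c) * Real.log N := by
      rw [div_le_iff₀ (by linarith)] at hb1
      linarith
    have h7 : c * Real.log N + n0 ≤ c' * Real.log N := by linarith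
    linarith
  · intro c hc
    obtain ⟨c', hc1, hc2⟩ := exists_between hc
    have hc0 : 0 < c' := hL.trans hc1
    have hf := a2 c' hc1
    rw [frequently_atTop] at hf ⊢
    intro a
    obtain ⟨b, hb⟩ := eventually_atTop.1 (hlog.eventually_ge_atTop (((n0 : ℝ) + c') / (c - c')))
    obtain ⟨M', hM1, hM2⟩ := hf (max a b + 1)
    obtain ⟨N, rfl⟩ : ∃ N, M' = N + 1 := ⟨M' - 1, by omega⟩
    have hNa : max a b ≤ N := by omega
    have hb1 := hb N ((le_max_right _ _).trans hNa)
    refine ⟨N, (le_max_left _ _).trans hNa, ?_⟩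
    have h3 := hge N
    have h4 : VV (fun _ => 1) (N + 1) ≤ 1 + Real.log N := by
      rw [VV_one]; exact hsum_le N
    have h5 : c' * VV (fun _ => 1) (N + 1) ≤ c' * (1 + Real.log N) :=
      mul_le_mul_of_nonneg_left h4 hc0.le
    rw [div_le_iff₀ (by linarith)] at hb1
    linarith

theorem finite_main (S : Set ℕ) (hS : Summable fun n : ℕ => if n ∈ S then 1 / (n : ℝ) else 0) :
    ∀ᵐ x : ℝ, 0 < x → {n : ℕ | n ∈ S ∧ (W x n).Prime}.Finite := by
  filter_upwards [conv al2 S hS, W_eq] with x hx1 hx2 hx0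
  obtain ⟨n0, hn0⟩ := eventually_atTop.1 ((hx1 hx0).and (hx2 hx0))
  refine (Set.finite_Iio n0).subset fun n hn => ?_
  by_contra hcon
  have h1 : n0 ≤ n := not_lt.1 hcon
  obtain ⟨b1, b2⟩ := hn0 n h1
  exact b1 ⟨hn.1, b2.1 hn.2⟩

theorem infinite_main (S : Set ℕ)
    (hS : ¬ Summable fun n : ℕ => if n ∈ S then 1 / ((n : ℝ) * Real.log n) else 0) :
    ∀ᵐ x : ℝ, 0 < x → {n : ℕ | n ∈ S ∧ (W x n).Prime}.Infinite := by
  have hV : Tendsto (VV (wS S)) atTop atTop := by
    refine (not_summable_iff_tendsto_nat_atTop_of_nonneg (f := fun n => wS S n * (1 / (n : ℝ)))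
      (fun n => mul_nonneg (wS_nonneg S n) (by positivity))).1 fun hsum => hS ?_
    refine Summable.of_nonneg_of_le (fun n => ?_) (fun n => ?_) (hsum.mul_left 3)
    · split_ifs
      · rcases Nat.eq_zero_or_pos n with rfl | hn
        · simp
        · have : 0 ≤ Real.log n := Real.log_nonneg (by exact_mod_cast hn)
          positivity
      · exact le_rfl
    · unfold wS
      split_ifs with h
      · rcases Nat.lt_or_ge n 2 with hn | hn
        · have h3 := log3 n
          have e : 1 / ((n : ℝ) * Real.log n) = 0 := by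
            interval_cases n <;> simp
          rw [e]
          positivity
        · have hn2 : (2 : ℝ) ≤ n := by exact_mod_cast hn
          have h3 := log3 n
          have hl : 0 < Real.log n := Real.log_pos (by linarith)
          have h4 : Real.log ((n : ℝ) + 3) ≤ 3 * Real.log n := by
            have : 3 * Real.log n = Real.log ((n : ℝ) ^ 3) := by rw [Real.log_pow]; norm_num
            rw [this]
            apply Real.log_le_log (by linarith)
            nlinarith [mul_self_nonneg ((n : ℝ) - 2), mul_nonneg (show (0 : ℝ) ≤ n by linarith)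
              (mul_self_nonneg ((n : ℝ) - 2))]
          have hn0 : (0 : ℝ) < n := by linarith
          have e : 3 * (1 / Real.log ((n : ℝ) + 3) * (1 / (n : ℝ))) =
              3 / (n * Real.log ((n : ℝ) + 3)) := by
            have : Real.log ((n : ℝ) + 3) ≠ 0 := by linarith
            field_simp
          rw [e, div_le_div_iff₀ (by positivity) (by positivity)]
          nlinarith
      · simp
  filter_upwards [law_XX al2 (wS_nonneg S) (wS_le_one S) hV (H_S S), W_eq] with x hx1 hx2 hx0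
  intro hfin
  obtain ⟨a1, _⟩ := hx1 hx0
  have hL : 0 < 1 / Real.log al := one_div_pos.2 (Real.log_pos (by linarith [al2]))
  have hf := a1 (1 / Real.log al / 2) (by linarith)
  obtain ⟨n0, hn0⟩ := eventually_atTop.1 (hx2 hx0)
  obtain ⟨n1, hn1⟩ := hfin.bddAbove
  have hX : ∀ N, XX al (wS S) N x ≤ (max n0 (n1 + 1) : ℕ) := by
    intro N
    unfold XX
    calc ∑ n ∈ range N, wS S n * fn al n x ≤
        ∑ n ∈ range N, (if n ∈ range (max n0 (n1 + 1)) then (1 : ℝ) else 0) := by
          refine Finset.sum_le_sum fun n _ => ?_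
          split_ifs with h
          · exact mul_le_one₀ (wS_le_one S n) (fn_nonneg _ _ _) (fn_le_one _ _ _)
          · rw [Finset.mem_range, not_lt] at h
            have h1 : n0 ≤ n := (le_max_left _ _).trans h
            have h2 : n1 + 1 ≤ n := (le_max_right _ _).trans h
            by_cases hS : n ∈ S
            · have h3 : ¬ (W x n).Prime := fun hp => by
                have := hn1 (show n ∈ {n : ℕ | n ∈ S ∧ (W x n).Prime} from ⟨hS, hp⟩)
                omega
              have h4 : fn al n x = 0 := by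
                have h5 : ¬ fn al n x = 1 := fun h => h3 ((hn0 n h1).2 h)
                unfold fn ph at h5 ⊢
                split_ifs at h5 ⊢ with h6
                · exact absurd rfl h5
                · rfl
              rw [h4, mul_zero]
            · unfold wS
              rw [if_neg hS, zero_mul]
      _ = (((range N).filter (fun n => n ∈ range (max n0 (n1 + 1)))).card : ℝ) := by
          rw [Finset.sum_boole]
      _ ≤ _ := by
          have : ((range N).filter (fun n => n ∈ range (max n0 (n1 + 1)))).card ≤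
              (range (max n0 (n1 + 1))).card := by
            refine Finset.card_le_card fun n hn => ?_
            exact (Finset.mem_filter.1 hn).2
          rw [Finset.card_range] at this
          exact_mod_cast this
  obtain ⟨b, hb⟩ := eventually_atTop.1 (hV.eventually_ge_atTop
    (((max n0 (n1 + 1) : ℕ) : ℝ) / (1 / Real.log al / 2)))
  rw [frequently_atTop] at hf
  obtain ⟨N, hN1, hN2⟩ := hf b
  have h1 := hb N hN1
  rw [div_le_iff₀ (by linarith)] at h1
  have h2 := hX N
  linarith

end Pool.Agent.TH915.PC
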