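import Pool.Agent.TH915.PC.Wt

/-!
# Convergence and a small perturbation (helper915)
-/

set_option autoImplicit false

namespace Pool.Agent.TH915.PC

open Filter Topology MeasureTheory Finset

open scoped Classical

lemma bc {s t : ℝ} {E : ℕ → Set ℝ} (a : ℕ → ℝ) (ha : Summable a)
    (h : ∀ᶠ n in atTop, (volume.restrict (Set.Ioc s t)).real (E n) ≤ a n) :
    ∀ᵐ x ∂(volume.restrict (Set.Ioc s t)), ∀ᶠ n in atTop, x ∉ E n := by
  apply ae_eventually_notMem
  set μ := volume.restrict (Set.Ioc s t) with hμ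
  have hfin : IsFiniteMeasure μ := by rw [hμ]; infer_instance
  have h1 : Summable fun n => μ.real (E n) := by
    refine Summable.of_norm_bounded_eventually_nat ha ?_
    filter_upwards [h] with n hn
    rw [Real.norm_eq_abs, abs_of_nonneg measureReal_nonneg]
    exact hn
  have h2 : ∀ n, μ (E n) = ENNReal.ofReal (μ.real (E n)) := fun n =>
    (ofReal_measureReal (measure_ne_top μ _)).symm
  simp only [h2]
  exact h1.tsum_ofReal_ne_top

lemma ae_all_Ioc {P : ℝ → Prop} (h : ∀ s t : ℝ, 0 < s → s < t → ∀ᵐ x ∂(volume.restrict (Set.Ioc s t)), P x) :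
    ∀ᵐ x : ℝ, 0 < x → P x := by
  have h1 : ∀ k : ℕ, ∀ᵐ x : ℝ, x ∈ Set.Ioc (1 / ((k : ℝ) + 1)) ((k : ℝ) + 2) → P x := by
    intro k
    have h2 : (0 : ℝ) < 1 / ((k : ℝ) + 1) := by positivity
    have h3 : 1 / ((k : ℝ) + 1) < (k : ℝ) + 2 := by
      rw [div_lt_iff₀ (by positivity)]
      have : (0 : ℝ) ≤ k := Nat.cast_nonneg k
      nlinarith
    exact (ae_restrict_iff' measurableSet_Ioc).1 (h _ _ h2 h3)
  filter_upwards [ae_all_iff.2 h1] with x hx hx0
  obtain ⟨k, hk⟩ := exists_nat_gt (max (1 / x) x)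
  have hk1 := (le_max_left _ _).trans_lt hk
  have hk2 := (le_max_right _ _).trans_lt hk
  refine hx k ⟨?_, by linarith⟩
  have hk0 : (0 : ℝ) < (k : ℝ) + 1 := by positivity
  rw [div_lt_iff₀ hk0]
  rw [div_lt_iff₀ hx0] at hk1
  nlinarith

lemma meas_fn (α : ℝ) (n : ℕ) {s t : ℝ} (hst : s ≤ t) :
    (volume.restrict (Set.Ioc s t)).real {x | fn α n x = 1} = ∫ x in s..t, fn α n x := by
  have hm : MeasurableSet {x | fn α n x = 1} := measurable_fn α n (measurableSet_singleton 1)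
  rw [intervalIntegral.integral_of_le hst]
  have e : ∀ x, fn α n x = Set.indicator {x | fn α n x = 1} (fun _ => (1 : ℝ)) x := by
    intro x
    by_cases h : fn α n x = 1
    · rw [Set.indicator_of_mem (by exact h), h]
    · rw [Set.indicator_of_notMem (by exact h)]
      unfold fn ph at h ⊢
      split_ifs at h ⊢ with h1
      · exact absurd rfl h
      · rfl
  conv_rhs => enter [2, x]; rw [e x]
  rw [integral_indicator_const _ hm]
  simp

/-- the convergence half -/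
theorem conv {α : ℝ} (hα : 2 ≤ α) (S : Set ℕ)
    (hS : Summable fun n : ℕ => if n ∈ S then 1 / (n : ℝ) else 0) :
    ∀ᵐ x : ℝ, 0 < x → ∀ᶠ n : ℕ in atTop, ¬ (n ∈ S ∧ fn α n x = 1) := by
  obtain ⟨K, hK, hb⟩ := bounds hα
  refine ae_all_Ioc fun s t hs hst => ?_
  obtain ⟨P, hP1, hP⟩ := hb s t hs hst
  refine bc (E := fun n => {x | n ∈ S ∧ fn α n x = 1})
    (fun n => K * (t - s) * (if n ∈ S then 1 / (n : ℝ) else 0)) (hS.mul_left _) ?_
  filter_upwards [eventually_ge_atTop P] with n hn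
  by_cases h : n ∈ S
  · rw [if_pos h]
    have e : {x | n ∈ S ∧ fn α n x = 1} = {x | fn α n x = 1} := by
      ext x; simp [h]
    rw [e, meas_fn α n hst.le]
    exact (hP n hn).1
  · rw [if_neg h]
    have e : {x | n ∈ S ∧ fn α n x = 1} = ∅ := by
      ext x; simp [h]
    rw [e]
    simp

/-- the fractional part of `2 α ^ n x` is rarely near `1` -/
theorem pert {α : ℝ} (hα : 2 ≤ α) : ∀ᵐ x : ℝ, 0 < x → ∀ᶠ n : ℕ in atTop,
    ⌊2 * x * α ^ n + 2 * x⁻¹ * (α ^ n)⁻¹ + 4⌋₊ = ⌊2 * α ^ n * x⌋₊ + 4 := by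
  refine ae_all_Ioc fun s t hs hst => ?_
  have hα0 : 0 < α := by linarith
  have ht : 0 < t := hs.trans hst
  set E : ℕ → Set ℝ := fun n => ⋃ k ∈ range (⌊2 * α ^ n * t⌋₊ + 1),
    Set.Icc (((k : ℝ) + 1 - 2 * s⁻¹ * (α ^ n)⁻¹) / (2 * α ^ n)) (((k : ℝ) + 1) / (2 * α ^ n)) with hE
  have hbc := bc (s := s) (t := t) (E := E) (fun n => (2 * s⁻¹ * (t + 1)) * (1 / 2) ^ n)
    ((summable_geometric_of_lt_one (by norm_num) (by norm_num)).mul_left _) (by
    refine Eventually.of_forall fun n => ?_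
    have hp : 0 < α ^ n := by positivity
    have hp1 : 1 ≤ α ^ n := one_le_pow₀ (by linarith)
    have h2n : (2 : ℝ) ^ n ≤ α ^ n := pow_le_pow_left₀ (by norm_num) hα n
    have h1 : volume (E n) ≤ ENNReal.ofReal ((⌊2 * α ^ n * t⌋₊ + 1 : ℕ) *
        ((2 * s⁻¹ * (α ^ n)⁻¹) / (2 * α ^ n))) := by
      rw [hE]
      refine (measure_biUnion_finset_le _ _).trans ?_
      have h2 : ∀ k ∈ range (⌊2 * α ^ n * t⌋₊ + 1),
          volume (Set.Icc (((k : ℝ) + 1 - 2 * s⁻¹ * (α ^ n)⁻¹) / (2 * α ^ n))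
            (((k : ℝ) + 1) / (2 * α ^ n))) =
          ENNReal.ofReal ((2 * s⁻¹ * (α ^ n)⁻¹) / (2 * α ^ n)) := by
        intro k _
        rw [Real.volume_Icc]
        congr 1
        ring
      rw [Finset.sum_congr rfl h2, Finset.sum_const, Finset.card_range, nsmul_eq_mul,
        ENNReal.ofReal_mul (by positivity), ENNReal.ofReal_natCast]
    have h3 : (volume.restrict (Set.Ioc s t)).real (E n) ≤ (⌊2 * α ^ n * t⌋₊ + 1 : ℕ) *
        ((2 * s⁻¹ * (α ^ n)⁻¹) / (2 * α ^ n)) := by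
      have h4 : (volume.restrict (Set.Ioc s t)) (E n) ≤ volume (E n) :=
        Measure.restrict_apply_le _ _
      have h5 := ENNReal.toReal_mono ENNReal.ofReal_ne_top (h4.trans h1)
      rwa [ENNReal.toReal_ofReal (by positivity)] at h5
    refine h3.trans ?_
    have h4 : ((⌊2 * α ^ n * t⌋₊ + 1 : ℕ) : ℝ) ≤ 2 * α ^ n * (t + 1) := by
      push_cast
      have := Nat.floor_le (show 0 ≤ 2 * α ^ n * t by positivity)
      nlinarith
    calc ((⌊2 * α ^ n * t⌋₊ + 1 : ℕ) : ℝ) * ((2 * s⁻¹ * (α ^ n)⁻¹) / (2 * α ^ n)) ≤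
        (2 * α ^ n * (t + 1)) * ((2 * s⁻¹ * (α ^ n)⁻¹) / (2 * α ^ n)) :=
          mul_le_mul_of_nonneg_right h4 (by positivity)
      _ = (2 * s⁻¹ * (t + 1)) * (α ^ n)⁻¹ := by field_simp
      _ ≤ (2 * s⁻¹ * (t + 1)) * (1 / 2) ^ n := by
          apply mul_le_mul_of_nonneg_left _ (by positivity)
          rw [one_div, inv_pow]
          exact inv_anti₀ (by positivity) h2n)
  filter_upwards [hbc, ae_restrict_mem measurableSet_Ioc] with x hx hxI
  have hx0 : 0 < x := hs.trans hxI.1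
  have hgt : ∀ᶠ n : ℕ in atTop, 0 < n := eventually_gt_atTop 0
  filter_upwards [hx, hgt] with n hn hn0
  have hp : 0 < α ^ n := by positivity
  set y : ℝ := 2 * α ^ n * x with hy
  have hy0 : 0 ≤ y := by positivity
  set k : ℕ := ⌊y⌋₊ with hk
  have g1 : (k : ℝ) ≤ y := Nat.floor_le hy0
  have g2 : y < k + 1 := Nat.lt_floor_add_one y
  have hkr : k ∈ range (⌊2 * α ^ n * t⌋₊ + 1) := by
    rw [Finset.mem_range, Nat.lt_succ_iff]
    apply Nat.floor_le_floor
    rw [hy]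
    exact mul_le_mul_of_nonneg_left hxI.2 (by positivity)
  have h1 : y < (k : ℝ) + 1 - 2 * s⁻¹ * (α ^ n)⁻¹ := by
    by_contra hcon
    push Not at hcon
    apply hn
    rw [hE]
    simp only [Set.mem_iUnion]
    refine ⟨k, hkr, ?_, ?_⟩
    · rw [div_le_iff₀ (by positivity)]
      calc (k : ℝ) + 1 - 2 * s⁻¹ * (α ^ n)⁻¹ ≤ y := hcon
        _ = x * (2 * α ^ n) := by rw [hy]; ring
    · rw [le_div_iff₀ (by positivity)]
      calc x * (2 * α ^ n) = y := by rw [hy]; ring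
        _ ≤ k + 1 := g2.le
  have h2 : x⁻¹ ≤ s⁻¹ := inv_anti₀ hs hxI.1.le
  have h3 : 2 * x⁻¹ * (α ^ n)⁻¹ ≤ 2 * s⁻¹ * (α ^ n)⁻¹ := by gcongr
  have h4 : 0 ≤ 2 * x⁻¹ * (α ^ n)⁻¹ := by positivity
  have e : 2 * x * α ^ n = y := by rw [hy]; ring
  rw [e, Nat.floor_eq_iff (by positivity)]
  push_cast
  constructor <;> linarith

end Pool.Agent.TH915.PC
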