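import Pool.Agent.TH915.PC.Mom

/-!
# The weights (helper915)
-/

set_option autoImplicit false

namespace Pool.Agent.TH915.PC

open Filter Topology MeasureTheory Finset

open scoped Classical

lemma flip (w : ℕ → ℝ) (M : ℕ) : ∑ n ∈ range M, qq w n =
    ∑ m ∈ range M, w m * (1 / (m : ℝ)) * ∑ k ∈ range (M - m), w (m + k) * (1 / (k : ℝ)) := by
  have h := Finset.sum_range_diag_flip M (fun m k => w m * w (m + k) * (1 / (m : ℝ) * (1 / (k : ℝ))))
  have e1 : ∑ n ∈ range M, qq w n = ∑ m ∈ range M, ∑ k ∈ range (m + 1),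
      (fun m k => w m * w (m + k) * (1 / (m : ℝ) * (1 / (k : ℝ)))) k (m - k) := by
    refine Finset.sum_congr rfl fun n _ => ?_
    unfold qq
    refine Finset.sum_congr rfl fun m hm => ?_
    rw [Finset.mem_range] at hm
    have : m + (n - m) = n := by omega
    simp only [this]
  rw [e1, h]
  refine Finset.sum_congr rfl fun m _ => ?_
  rw [Finset.mul_sum]
  exact Finset.sum_congr rfl fun k _ => by ring

lemma hsum_le (m : ℕ) : ∑ k ∈ range (m + 1), 1 / (k : ℝ) ≤ 1 + Real.log m := by
  rw [Finset.sum_range_succ']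
  have h := harmonic_le_one_add_log m
  have e : ((harmonic m : ℚ) : ℝ) = ∑ k ∈ range m, 1 / ((k + 1 : ℕ) : ℝ) := by
    unfold harmonic
    push_cast
    exact Finset.sum_congr rfl fun k _ => by rw [one_div]
  rw [← e]
  simpa using h

lemma le_hsum (m : ℕ) : Real.log ((m : ℝ) + 1) ≤ ∑ k ∈ range (m + 1), 1 / (k : ℝ) := by
  rw [Finset.sum_range_succ']
  have h := log_add_one_le_harmonic m
  have e : ((harmonic m : ℚ) : ℝ) = ∑ k ∈ range m, 1 / ((k + 1 : ℕ) : ℝ) := by
    unfold harmonic
    push_cast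
    exact Finset.sum_congr rfl fun k _ => by rw [one_div]
  rw [← e]
  have : ((m + 1 : ℕ) : ℝ) = (m : ℝ) + 1 := by push_cast; ring
  rw [this] at h
  simpa using h

/-- constant weights -/
lemma VV_one (N : ℕ) : VV (fun _ => 1) N = ∑ k ∈ range N, 1 / (k : ℝ) := by
  unfold VV
  exact Finset.sum_congr rfl fun k _ => one_mul _

lemma VV_one_tendsto : Tendsto (VV (fun _ => 1)) atTop atTop := by
  have h1 : Tendsto (fun N : ℕ => VV (fun _ => 1) (N + 1)) atTop atTop := by
    have h2 : Tendsto (fun N : ℕ => Real.log ((N : ℝ) + 1)) atTop atTop :=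
      Real.tendsto_log_atTop.comp (tendsto_natCast_atTop_atTop.atTop_add tendsto_const_nhds)
    refine tendsto_atTop_mono (fun N => ?_) h2
    rw [VV_one]
    exact le_hsum N
  exact (tendsto_add_atTop_iff_nat 1).1 h1

lemma H_one (N : ℕ) : ∑ n ∈ range N, qq (fun _ => 1) n ≤ 2 * (1 + VV (fun _ => 1) N) ^ 2 := by
  rw [flip]
  have hV0 : 0 ≤ VV (fun _ => 1) N := by
    rw [VV_one]; exact Finset.sum_nonneg fun k _ => by positivity
  calc ∑ m ∈ range N, (1 : ℝ) * (1 / (m : ℝ)) * ∑ k ∈ range (N - m), 1 * (1 / (k : ℝ)) ≤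
      ∑ m ∈ range N, (1 : ℝ) * (1 / (m : ℝ)) * VV (fun _ => 1) N := by
        refine Finset.sum_le_sum fun m _ => ?_
        apply mul_le_mul_of_nonneg_left _ (by positivity)
        unfold VV
        refine Finset.sum_le_sum_of_subset_of_nonneg ?_ fun k _ _ => by positivity
        intro k hk
        rw [Finset.mem_range] at hk ⊢
        omega
    _ = VV (fun _ => 1) N * VV (fun _ => 1) N := by rw [← Finset.sum_mul]; rfl
    _ ≤ _ := by nlinarith

/-- the weights `1 / log (n + 2)` on a set -/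
noncomputable def wS (S : Set ℕ) (n : ℕ) : ℝ := if n ∈ S then 1 / Real.log ((n : ℝ) + 3) else 0

lemma log3 (n : ℕ) : 1 ≤ Real.log ((n : ℝ) + 3) := by
  rw [Real.le_log_iff_exp_le (by positivity)]
  have := Real.exp_one_lt_d9
  have hn : (0 : ℝ) ≤ n := Nat.cast_nonneg n
  linarith

lemma wS_nonneg (S : Set ℕ) (n : ℕ) : 0 ≤ wS S n := by
  unfold wS
  have := log3 n
  split_ifs
  · positivity
  · exact le_rfl

lemma wS_le (S : Set ℕ) (n : ℕ) : wS S n ≤ 1 / Real.log ((n : ℝ) + 3) := by
  unfold wS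
  have := log3 n
  split_ifs
  · exact le_rfl
  · positivity

lemma wS_le_one (S : Set ℕ) (n : ℕ) : wS S n ≤ 1 := by
  refine (wS_le S n).trans ?_
  have := log3 n
  rw [div_le_one (by linarith)]
  exact this

lemma H_S (S : Set ℕ) (N : ℕ) : ∑ n ∈ range N, qq (wS S) n ≤ 2 * (1 + VV (wS S) N) ^ 2 := by
  rw [flip]
  have hV0 : 0 ≤ VV (wS S) N :=
    Finset.sum_nonneg fun k _ => mul_nonneg (wS_nonneg S k) (by positivity)
  have hin : ∀ m ∈ range N, wS S m * (1 / (m : ℝ)) *
      ∑ k ∈ range (N - m), wS S (m + k) * (1 / (k : ℝ)) ≤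
      wS S m * (1 / (m : ℝ)) * (2 + 2 * VV (wS S) N) := by
    intro m hm
    rcases Nat.eq_zero_or_pos m with rfl | hm0
    · simp
    apply mul_le_mul_of_nonneg_left _ (mul_nonneg (wS_nonneg S m) (by positivity))
    have hlm := log3 m
    have hmr : (1 : ℝ) ≤ m := by exact_mod_cast hm0
    have hpt : ∀ k ∈ range (N - m), wS S (m + k) * (1 / (k : ℝ)) ≤
        (if k ∈ range (m + 1) then (1 / Real.log ((m : ℝ) + 3)) * (1 / (k : ℝ)) else 0) +
        2 * (wS S (m + k) * (1 / ((m + k : ℕ) : ℝ))) := by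
      intro k _
      have h0 : 0 ≤ wS S (m + k) * (1 / ((m + k : ℕ) : ℝ)) :=
        mul_nonneg (wS_nonneg S _) (by positivity)
      split_ifs with h
      · have h1 : wS S (m + k) ≤ 1 / Real.log ((m : ℝ) + 3) := by
          refine (wS_le S _).trans ?_
          apply one_div_le_one_div_of_le (by linarith)
          apply Real.log_le_log (by positivity)
          push_cast
          have : (0 : ℝ) ≤ k := Nat.cast_nonneg k
          linarith
        have h2 : wS S (m + k) * (1 / (k : ℝ)) ≤ 1 / Real.log ((m : ℝ) + 3) * (1 / (k : ℝ)) :=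
          mul_le_mul_of_nonneg_right h1 (by positivity)
        linarith
      · rw [Finset.mem_range, not_lt] at h
        have hk1 : (m : ℝ) + 1 ≤ k := by exact_mod_cast h
        have hk0 : (0 : ℝ) < k := by linarith
        have h1 : 1 / (k : ℝ) ≤ 2 * (1 / ((m + k : ℕ) : ℝ)) := by
          push_cast
          rw [mul_one_div, div_le_div_iff₀ hk0 (by positivity)]
          linarith
        calc wS S (m + k) * (1 / (k : ℝ)) ≤ wS S (m + k) * (2 * (1 / ((m + k : ℕ) : ℝ))) :=
              mul_le_mul_of_nonneg_left h1 (wS_nonneg S _)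
          _ = _ := by ring
    refine (Finset.sum_le_sum hpt).trans ?_
    rw [Finset.sum_add_distrib]
    refine add_le_add ?_ ?_
    · calc ∑ k ∈ range (N - m), (if k ∈ range (m + 1) then
            (1 / Real.log ((m : ℝ) + 3)) * (1 / (k : ℝ)) else 0) =
          ∑ k ∈ (range (N - m)).filter (fun k => k ∈ range (m + 1)),
            (1 / Real.log ((m : ℝ) + 3)) * (1 / (k : ℝ)) := by rw [Finset.sum_filter]
        _ ≤ ∑ k ∈ range (m + 1), (1 / Real.log ((m : ℝ) + 3)) * (1 / (k : ℝ)) := by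
            refine Finset.sum_le_sum_of_subset_of_nonneg ?_ fun k _ _ => by positivity
            intro k hk
            exact (Finset.mem_filter.1 hk).2
        _ = (1 / Real.log ((m : ℝ) + 3)) * ∑ k ∈ range (m + 1), 1 / (k : ℝ) := by
            rw [Finset.mul_sum]
        _ ≤ (1 / Real.log ((m : ℝ) + 3)) * (1 + Real.log m) :=
            mul_le_mul_of_nonneg_left (hsum_le m) (by positivity)
        _ ≤ (1 / Real.log ((m : ℝ) + 3)) * (2 * Real.log ((m : ℝ) + 3)) := by
            apply mul_le_mul_of_nonneg_left _ (by positivity)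
            have : Real.log m ≤ Real.log ((m : ℝ) + 3) := Real.log_le_log (by linarith) (by linarith)
            linarith
        _ = 2 := by field_simp
    · rw [← Finset.mul_sum]
      apply mul_le_mul_of_nonneg_left _ (by norm_num)
      unfold VV
      have e : ∑ k ∈ range (N - m), wS S (m + k) * (1 / ((m + k : ℕ) : ℝ)) =
          ∑ n ∈ Finset.Ico m N, wS S n * (1 / (n : ℝ)) := by
        rw [Finset.sum_Ico_eq_sum_range]
      rw [e]
      refine Finset.sum_le_sum_of_subset_of_nonneg ?_ fun k _ _ =>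
        mul_nonneg (wS_nonneg S k) (by positivity)
      intro k hk
      rw [Finset.mem_Ico] at hk
      exact Finset.mem_range.2 hk.2
  calc _ ≤ ∑ m ∈ range N, wS S m * (1 / (m : ℝ)) * (2 + 2 * VV (wS S) N) :=
        Finset.sum_le_sum hin
    _ = VV (wS S) N * (2 + 2 * VV (wS S) N) := by rw [← Finset.sum_mul]; rfl
    _ ≤ _ := by nlinarith

end Pool.Agent.TH915.PC
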